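import Pool.Agent.Q108.NRF.Data

/-!
# Residual finiteness growth of finitely generated nilpotent groups

All infinite finitely generated nilpotent groups are allowed, also those with torsion. From
`Pool/Agent/TH91/RF/Defs.lean`: `wordLen`, `depth` (the least index of a normal subgroup of finite
index avoiding `g`), `rfGrowth`, `GrowthEquiv` (the relation `≈`), `MalcevCompletion`, `QLie` (its
rational Lie algebra) and `CLie` (the complexification). From `Pool/Agent/Q108/NRF`: `sepDims 𝔤`
is the set of all `e` such that the ideals of codimension at most `e` of `𝔤` meet in zero;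
`NilData G S` consists of a homomorphism `π` with finite kernel from `G` onto a (necessarily
torsion-free) group `Q` and a Mal'cev completion `c` of `Q`; `VirtIso` is virtual isomorphism and
`GradedIso` says that the associated graded Lie algebras are isomorphic.

Part (5) deals with virtually isomorphic groups, part (4) includes lattices in one Lie group; these
are the pairs known to be quasi-isometric. Part (6) shows that the asymptotic cone (which depends
only on the associated graded Lie algebra) does not determine the residual finiteness growth.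
-/

set_option autoImplicit false

namespace Pool.Agent.Results.MP_f60e8a_al.VirtualIsomorphism

open Pool.Agent.TH91.RF Pool.Agent.Q108.NRF

universe u v

theorem result :
    -- (1) the data exist for every infinite finitely generated nilpotent group
    (∀ (G : Type u) [Group G] [Group.IsNilpotent G] [Infinite G] (S : Set G), S.Finite →
      Subgroup.closure S = ⊤ → Nonempty (NilData G S)) ∧
    -- (2) the growth
    (∀ (G : Type u) [Group G] (S : Set G) (D : NilData G S), ∃ e : ℕ,
      IsLeast (sepDims D.c.CLie) e ∧ 1 ≤ e ∧ e ≤ Module.finrank ℂ D.c.CLie ∧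
        GrowthEquiv (rfGrowth S) (fun n => Nat.log 2 n ^ e)) ∧
    -- (3) the growths are equivalent exactly when the exponents are equal
    (∀ (G₁ : Type u) (G₂ : Type v) [Group G₁] [Group G₂] (S₁ : Set G₁) (S₂ : Set G₂)
      (D₁ : NilData G₁ S₁) (D₂ : NilData G₂ S₂) (e₁ e₂ : ℕ), IsLeast (sepDims D₁.c.CLie) e₁ →
        IsLeast (sepDims D₂.c.CLie) e₂ → (GrowthEquiv (rfGrowth S₁) (rfGrowth S₂) ↔ e₁ = e₂)) ∧
    -- (4) in particular if the complex Lie algebras are isomorphic
    (∀ (G₁ : Type u) (G₂ : Type v) [Group G₁] [Group G₂] (S₁ : Set G₁) (S₂ : Set G₂)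
      (D₁ : NilData G₁ S₁) (D₂ : NilData G₂ S₂), Nonempty (D₁.c.CLie ≃ₗ⁅ℂ⁆ D₂.c.CLie) →
        GrowthEquiv (rfGrowth S₁) (rfGrowth S₂)) ∧
    -- (5) virtually isomorphic groups
    (∀ (G₁ : Type u) (G₂ : Type v) [Group G₁] [Group G₂] (S₁ : Set G₁) (S₂ : Set G₂),
      Nonempty (NilData G₁ S₁) → Nonempty (NilData G₂ S₂) → VirtIso G₁ G₂ →
        GrowthEquiv (rfGrowth S₁) (rfGrowth S₂)) ∧
    -- (6) two groups with isomorphic associated graded Lie algebras and different growths
    (∃ (G₁ G₂ : Type) (_ : Group G₁) (_ : Group G₂) (S₁ : Set G₁) (S₂ : Set G₂)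
      (D₁ : NilData G₁ S₁) (D₂ : NilData G₂ S₂),
      Function.Injective D₁.π ∧ Function.Injective D₂.π ∧
      Module.finrank ℚ D₁.c.QLie = 5 ∧ Module.finrank ℚ D₂.c.QLie = 5 ∧
      GradedIso D₁.c.QLie D₂.c.QLie ∧
      GrowthEquiv (rfGrowth S₁) (fun n => Nat.log 2 n ^ 5) ∧
      GrowthEquiv (rfGrowth S₂) (fun n => Nat.log 2 n ^ 4) ∧
      ¬ GrowthEquiv (rfGrowth S₁) (rfGrowth S₂)) :=
  ⟨fun G _ _ _ S hS hgen => nonempty_data G S hS hgen,
    fun _ _ _ D => data_formula D,
    fun _ _ _ _ _ _ D₁ D₂ e₁ e₂ h₁ h₂ => data_iff D₁ D₂ e₁ e₂ h₁ h₂,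
    fun _ _ _ _ _ _ D₁ D₂ h => data_iso D₁ D₂ h,
    fun _ _ _ _ _ _ ⟨D₁⟩ ⟨D₂⟩ h => data_virt D₁ D₂ h, pair'⟩

end Pool.Agent.Results.MP_f60e8a_al.VirtualIsomorphism
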